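import Pool.Agent.H.MP_ab672e_co.Far

namespace Pool.Agent.Results.MP_ab672e_co.Two

open Set Metric Complex Pool.Agent.H.MP_ab672e_co

/-- the lattice points of the plane -/
def Λ : Set ℂ := {z | ∃ a b : ℤ, z = a + b * I}

def ι (p : ℤ × ℤ) : ℂ := p.1 + p.2 * I

theorem inj : Function.Injective ι := fun p q h => by
  simpa [ι, Complex.ext_iff, Prod.ext_iff] using h

theorem dd (p q : ℤ × ℤ) : dist (ι p) (ι q) ^ 2 = d2 p q := by
  rw [dist_eq_re_im, Real.sq_sqrt (by positivity)]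
  simp [ι, d2, sq]

noncomputable def c (u v : ℤ) : ℂ := (u / 34 : ℝ) + (v / 34 : ℝ) * I

theorem dc (p : ℤ × ℤ) (u v : ℤ) :
    dist (ι p) (c u v) = √((d2 (p.1 * 34, p.2 * 34) (u, v) : ℤ) / 1156) := by
  rw [dist_eq_re_im]
  congr 1
  simp only [ι, c, d2, add_re, add_im, intCast_re, intCast_im, mul_re, mul_im, I_re, I_im, ofReal_re,
    ofReal_im]
  push_cast
  ring

def S (u v : ℤ) : List (ℤ × ℤ) := box.filter fun p => d2 (p.1 * 34, p.2 * 34) (u, v) < 120250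

def T (u v : ℤ) : List (ℤ × ℤ) := box.filter fun p => d2 (p.1 * 34, p.2 * 34) (u, v) = 120250

theorem mb {p : ℤ × ℤ} {u v : ℤ} (hu : u ∈ Icc 0 17) (hv : v ∈ Icc 0 17)
    (h : d2 (p.1 * 34, p.2 * 34) (u, v) ≤ 120250) : p ∈ box := by
  have k : ∀ a u e : ℤ, u ∈ Icc 0 17 → (a * 34 - u) * (a * 34 - u) + e * e ≤ 120250 → a ∈ xs :=
    fun a u e hu h => by
      have h1 : -11 ≤ a := by nlinarith [hu.1, hu.2, mul_self_nonneg e]
      have h2 : a ≤ 11 := by nlinarith [hu.1, hu.2, mul_self_nonneg e]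
      interval_cases a <;> decide
  exact List.mem_product.2 ⟨k _ _ _ hu h, k _ _ _ hv ((add_comm _ _).trans_le h)⟩

theorem hS {u v : ℤ} (hu : u ∈ Icc 0 17) (hv : v ∈ Icc 0 17) :
    Λ ∩ ball (c u v) √(120250 / 1156) = ι '' (S u v).toFinset := by
  have k : ∀ p, ι p ∈ ball (c u v) √(120250 / 1156) ↔ d2 (p.1 * 34, p.2 * 34) (u, v) < 120250 :=
    fun p => by
      rw [mem_ball, dc, Real.sqrt_lt_sqrt_iff_of_pos (by norm_num), div_lt_div_iff_of_pos_right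
        (by norm_num)]
      norm_cast
  ext z
  constructor
  · rintro ⟨⟨a, b, rfl⟩, h⟩
    have := (k (a, b)).1 h
    exact ⟨(a, b), by simpa [S, this] using mb hu hv this.le, rfl⟩
  · rintro ⟨p, hp, rfl⟩
    exact ⟨⟨_, _, rfl⟩, (k p).2 (by simpa using (List.mem_filter.1 (List.mem_toFinset.1 hp)).2)⟩

theorem hT {u v : ℤ} (hu : u ∈ Icc 0 17) (hv : v ∈ Icc 0 17) :
    Λ ∩ sphere (c u v) √(120250 / 1156) = ι '' (T u v).toFinset := by
  have k : ∀ p, ι p ∈ sphere (c u v) √(120250 / 1156) ↔ d2 (p.1 * 34, p.2 * 34) (u, v) = 120250 :=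
    fun p => by
      have : 0 ≤ d2 (p.1 * 34, p.2 * 34) (u, v) := add_nonneg (mul_self_nonneg _) (mul_self_nonneg _)
      rw [mem_sphere, dc, Real.sqrt_inj (by positivity) (by norm_num), div_left_inj' (by norm_num)]
      norm_cast
  ext z
  constructor
  · rintro ⟨⟨a, b, rfl⟩, h⟩
    have := (k (a, b)).1 h
    exact ⟨(a, b), by simpa [T, this] using mb hu hv this.le, rfl⟩
  · rintro ⟨p, hp, rfl⟩
    exact ⟨⟨_, _, rfl⟩, (k p).2 (by simpa using (List.mem_filter.1 (List.mem_toFinset.1 hp)).2)⟩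

theorem ne {A B : List (ℤ × ℤ)} (g : ℂ ≃ᵢ ℂ) (p q) (hp : p ∈ A) (hq : q ∈ A)
    (h : (B.all fun x => B.all fun y => d2 x y != d2 p q) = true) :
    g '' (ι '' A.toFinset) ≠ ι '' B.toFinset := fun e => by
  obtain ⟨x, hx, ex⟩ := e.le ⟨_, ⟨p, List.mem_toFinset.2 hp, rfl⟩, rfl⟩
  obtain ⟨y, hy, ey⟩ := e.le ⟨_, ⟨q, List.mem_toFinset.2 hq, rfl⟩, rfl⟩
  have := dd x y
  rw [ex, ey, g.dist_eq, dd, Int.cast_inj] at this
  simpa [this] using List.all_eq_true.1 (List.all_eq_true.1 h x (List.mem_toFinset.1 hx)) y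
    (List.mem_toFinset.1 hy)

theorem result : ∃ (n : ℕ) (c₁ c₂ : ℂ) (R : ℝ), 0 < n ∧ 0 < R ∧ (Λ ∩ ball c₁ R).ncard = n ∧
    (Λ ∩ ball c₂ R).ncard = n ∧ (∀ (c : ℂ) (r : ℝ), (Λ ∩ ball c r).ncard = n → r ≤ R) ∧
    ∀ g : ℂ ≃ᵢ ℂ, g '' Λ = Λ →
      g '' sphere c₁ R ≠ sphere c₂ R ∧ g '' (Λ ∩ ball c₁ R) ≠ Λ ∩ ball c₂ R := by
  have a : (9 : ℤ) ∈ Icc 0 17 := by decide
  have b : (17 : ℤ) ∈ Icc 0 17 := by decide
  have d : (3 : ℤ) ∈ Icc 0 17 := by decide
  refine ⟨322, c 9 9, c 17 3, √(120250 / 1156), by norm_num, by positivity, ?_, ?_, fun z r h => ?_,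
    fun g hg => ⟨fun h => ?_, ?_⟩⟩
  · rw [hS a a, ncard_image_of_injective _ inj, ncard_coe_finset, S,
      List.toFinset_card_of_nodup (nd.filter _)]
    decide +kernel
  · rw [hS b d, ncard_image_of_injective _ inj, ncard_coe_finset, S,
      List.toFinset_card_of_nodup (nd.filter _)]
    decide +kernel
  · by_contra k
    obtain ⟨U, h1, h2⟩ := all z.re z.im
    have := ncard_le_ncard (s := ι '' U) (t := Λ ∩ ball z r) ?_ (finite_of_ncard_ne_zero (by omega))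
    · rw [ncard_image_of_injective _ inj, ncard_coe_finset] at this
      omega
    rintro _ ⟨p, hp, rfl⟩
    refine ⟨⟨_, _, rfl⟩, lt_of_le_of_lt ?_ (not_le.1 k)⟩
    rw [dist_eq_re_im]
    refine Real.sqrt_le_sqrt ?_
    simpa [ι, G, le_div_iff₀] using h2 p hp
  · refine ne g (-5, 9) (9, -5) (A := T 9 9) (B := T 17 3) (by decide +kernel) (by decide +kernel)
      (by decide +kernel) ?_
    rw [← hT a a, ← hT b d, image_inter g.injective, hg, h]
  · rw [hS a a, hS b d]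
    exact ne g (-7, 7) (7, -7) (by decide +kernel) (by decide +kernel)
      (by rw [show d2 (-7, 7) (7, -7) = 392 by decide, show S 17 3 = L2 by unfold S L2; rfl]; exact nL)

end Pool.Agent.Results.MP_ab672e_co.Two
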